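import Pool.Agent.helper47.CL.SpecD

/-!
# Row TB of MP_d9d598_co
-/

set_option autoImplicit false

namespace Pool.Agent.helper41.CL

open Finset

theorem TB_div (a q c : ℕ) (h1 : c * q ≤ a) (h2 : a < (c + 1) * q) : a / q = c := by
  have hq : 0 < q := by
    by_contra h
    have h0 : q = 0 := by omega
    subst h0
    simp at h2
  apply le_antisymm
  · exact Nat.lt_succ_iff.1 ((Nat.div_lt_iff_lt_mul hq).2 h2)
  · exact (Nat.le_div_iff_mul_le hq).2 h1

theorem TB : TB_stmt := by
  intro q r hr hrq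
  have hp3 : ∀ i, 1 ≤ i → i ≤ r → partSize (2 * q + r) q i = 3 := by
    intro i hi1 hi2
    exact TB_div _ _ _ (by omega) (by omega)
  have hp2 : ∀ i, r < i → i ≤ q → partSize (2 * q + r) q i = 2 := by
    intro i hi1 hi2
    exact TB_div _ _ _ (by omega) (by omega)
  have hsplit : Icc 3 q = Icc 3 r ∪ Icc (r + 1) q := by
    ext i
    simp only [mem_Icc, mem_union]
    omega
  have hdis : Disjoint (Icc 3 r) (Icc (r + 1) q) := by
    rw [disjoint_left]
    intro i hi hj
    rw [mem_Icc] at hi hj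
    omega
  have h1 : ∏ i ∈ Icc 3 r, partSize (2 * q + r) q i = 3 ^ (r - 2) := by
    rw [prod_congr rfl (fun i hi => hp3 i (by rw [mem_Icc] at hi; omega) (mem_Icc.1 hi).2), prod_const, Nat.card_Icc]
    congr 1
  have h2 : ∏ i ∈ Icc (r + 1) q, partSize (2 * q + r) q i = 2 ^ (q - r) := by
    rw [prod_congr rfl (fun i hi => hp2 i (by rw [mem_Icc] at hi; omega) (mem_Icc.1 hi).2), prod_const, Nat.card_Icc]
    congr 1
    omega
  unfold target
  have e : q + 1 - 1 = q := rfl
  rw [e, hsplit, prod_union hdis, h1, h2, hp3 1 le_rfl (by omega), hp3 2 (by omega) hr, mul_assoc]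

end Pool.Agent.helper41.CL
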